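import Pool.Agent.X191.RL.Main
import Pool.Agent.TH19.DS.E

/-!
# The double shuffle Lie algebra: free with odd generators, or too large for a positive proportion

Let `D w` be the dimension of the part of weight `w` of the double shuffle Lie algebra `dm` and `l w` the dimension of
the part of weight `w` of the free Lie algebra on `s₃, s₅, s₇, …`; it is known that `l w ≤ D w`, and the question is
whether `D w = l w` for all `w`. Let `u n`, `f n` be the dimensions of the parts of weight `n` of the universal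
enveloping algebras of `dm` and of the free Lie algebra, and `ρ = 1.3247…` the root of `ρ ^ 3 = ρ + 1`.

* The ratio `u n / f n` always converges, to the product of the `(1 - ρ ^ (-w)) ^ (-(D w - l w))` (in `[1, ∞]`).
* If `D m > l m` then `u n ≥ f n + f (n - m) + f (n - 2 m) + …` and the limit is at least `1 / (1 - ρ ^ (-m))`.
* Hence `dm` is free on one generator in each odd weight `≥ 3` iff the limit is `1`, iff `u n ≤ (1 + ε) f n` for each
  `ε > 0` and arbitrarily large `n`, iff `u n = f n` for infinitely many `n`; and `u n = f n` for one `n` gives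
  `D w = l w` for all `w ≤ n - 5`.
-/

set_option autoImplicit false

open Finset Filter Topology
open scoped ENNReal

namespace Pool.Agent.Results.MP_ec2393_nt.RatioLaw

open Pool.Agent.H777R4.DM (A IsDM co isDM_add isDM_zero isDM_smul co_add co_zero co_smul)

/-- The elements of the double shuffle Lie algebra which are homogeneous of weight `w`. -/
def dm (w : ℕ) : Submodule ℚ A where
  carrier := {ψ | IsDM ψ ∧ ∀ u, co ψ u ≠ 0 → u.length = w}
  add_mem' := by
    rintro ψ φ ⟨h1, h2⟩ ⟨h3, h4⟩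
    refine ⟨isDM_add h1 h3, fun u hu => ?_⟩
    rw [co_add] at hu
    by_cases h : co ψ u = 0
    · refine h4 u fun h' => hu ?_
      rw [h, h', add_zero]
    · exact h2 u h
  zero_mem' := ⟨isDM_zero, fun u hu => absurd (co_zero u) hu⟩
  smul_mem' := by
    rintro c ψ ⟨h1, h2⟩
    refine ⟨isDM_smul h1 c, fun u hu => h2 u fun h' => hu ?_⟩
    rw [co_smul, h', mul_zero]

/-- The coefficient of `x ^ n` in the product of the `(1 - x ^ w) ^ (-D w)`, `w ≥ 1` (the factors with `w > n` do not
matter): for the dimensions `D w` of a graded Lie algebra this is the dimension of the part of weight `n` of its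
universal enveloping algebra. -/
noncomputable def enveloping (D : ℕ → ℕ) (n : ℕ) : ℕ :=
  PowerSeries.coeff n (∏ w ∈ Icc 1 n, (PowerSeries.mk fun k => if w ∣ k then 1 else 0) ^ D w)

/-- The coefficients of `1 / (1 - x ^ 3 - x ^ 5 - x ^ 7 - ⋯)`. -/
def free : ℕ → ℕ
  | 0 => 1
  | 1 => 0
  | 2 => 0
  | (n + 3) => free (n + 1) + free n

/-- The dimensions `l w` are those of the free Lie algebra on `s₃, s₅, s₇, …`. -/
def IsFreeDim (l : ℕ → ℕ) : Prop := ∀ n, enveloping l n = free n

/-- The answer to Q1 is positive, in terms of dimensions. -/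
def Q1 (l : ℕ → ℕ) : Prop := ∀ w, 1 ≤ w → Module.finrank ℚ (dm w) = l w

theorem enveloping_eq (D : ℕ → ℕ) (n : ℕ) : enveloping D n = Pool.Agent.X191.RL.U D n := rfl

theorem free_eq (n : ℕ) : free n = Pool.Agent.X191.RL.free n := by
  induction n using Nat.strong_induction_on with
  | _ n ih =>
    match n with
    | 0 => rfl
    | 1 => rfl
    | 2 => rfl
    | n + 3 => rw [free, Pool.Agent.X191.RL.free, ih (n + 1) (by omega), ih n (by omega)]

theorem dm_finite (w : ℕ) : Module.Finite ℚ (dm w) := by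
  refine (Pool.Agent.TH19.DS.fin_of_words (dm w) ((univ : Finset (Fin w → Fin 2)).image List.ofFn) ?_).1
  rintro ψ ⟨-, h2⟩ h3
  refine Pool.Agent.H777R4.DM.al_ext fun u => ?_
  rw [co_zero]
  by_contra hne
  have hu := h2 u hne
  refine hne (h3 u (mem_image.2 ⟨fun i => u.get (Fin.cast hu.symm i), mem_univ _, ?_⟩))
  subst hu
  simp

/-- Let `l` be the dimensions of the free Lie algebra on `s₃, s₅, …`; the hypothesis `h` holds since `dm` contains it. -/
theorem result (l : ℕ → ℕ) (hl : IsFreeDim l) (h : ∀ w, 1 ≤ w → l w ≤ Module.finrank ℚ (dm w))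
    (ρ : ℝ) (hρ1 : 1 < ρ) (hρ : ρ ^ 3 = ρ + 1) :
    (∀ w, Module.Finite ℚ (dm w)) ∧
    ∃ S : ℝ≥0∞,
      -- the ratio of the dimensions converges
      Tendsto (fun n => (enveloping (fun w => Module.finrank ℚ (dm w)) n : ℝ≥0∞) / (free n : ℝ≥0∞)) atTop (𝓝 S) ∧
      S = ⨆ N, ∏ w ∈ Icc 1 N, ((1 - ENNReal.ofReal (1 / ρ) ^ w)⁻¹) ^ (Module.finrank ℚ (dm w) - l w) ∧
      -- one additional element of weight `m`
      (∀ m, 1 ≤ m → l m < Module.finrank ℚ (dm m) →
        (1 - ENNReal.ofReal (1 / ρ) ^ m)⁻¹ ≤ S ∧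
        ∀ n, ∑ j ∈ range (n / m + 1), free (n - j * m) ≤ enveloping (fun w => Module.finrank ℚ (dm w)) n) ∧
      -- one weight decides all smaller weights
      (∀ n, enveloping (fun w => Module.finrank ℚ (dm w)) n = free n →
        ∀ w, 1 ≤ w → w + 5 ≤ n → Module.finrank ℚ (dm w) = l w) ∧
      -- the conjecture
      (Q1 l ↔ S = 1) ∧
      (Q1 l ↔ ∀ ε : ℝ, 0 < ε → ∀ n₀ : ℕ, ∃ n, n₀ ≤ n ∧
        (enveloping (fun w => Module.finrank ℚ (dm w)) n : ℝ) ≤ (1 + ε) * free n) ∧
      (Q1 l ↔ ∀ n₀ : ℕ, ∃ n, n₀ ≤ n ∧ enveloping (fun w => Module.finrank ℚ (dm w)) n = free n) := by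
  have hU : ∀ n, Pool.Agent.X191.RL.U l n = Pool.Agent.X191.RL.free n := fun n => by
    rw [← free_eq]; exact hl n
  set D : ℕ → ℕ := fun w => Module.finrank ℚ (dm w) with hD
  have hff : free = Pool.Agent.X191.RL.free := funext free_eq
  rw [hff]
  have h' : ∀ w, 1 ≤ w → l w ≤ D w := h
  have hlim := Pool.Agent.X191.RL.ratio hU h' hρ1 hρ
  set S := ⨆ N, ∏ w ∈ Icc 1 N, ((1 - ENNReal.ofReal (1 / ρ) ^ w)⁻¹) ^ (D w - l w) with hS
  have hr0 : (0 : ℝ) < 1 / ρ := by positivity
  have hbig : ∀ m, 1 ≤ m → l m < D m → 1 < S := by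
    intro m hm hlt
    refine lt_of_lt_of_le ?_ (Pool.Agent.X191.RL.sup_ge hm hlt)
    rw [ENNReal.one_lt_inv]
    refine ENNReal.sub_lt_self ENNReal.one_ne_top one_ne_zero ?_
    exact pow_ne_zero _ (by simpa using hr0)
  have hQS : Q1 l ↔ S = 1 := by
    constructor
    · intro hQ
      have : ∀ N, ∏ w ∈ Icc 1 N, ((1 - ENNReal.ofReal (1 / ρ) ^ w)⁻¹) ^ (D w - l w) = 1 := fun N =>
        prod_eq_one fun w hw => by
          have : D w = l w := hQ w (mem_Icc.1 hw).1
          rw [this, Nat.sub_self, pow_zero]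
      rw [hS]
      simp_rw [this]
      exact iSup_const
    · intro hS1 w hw
      by_contra hne
      have hlt : l w < D w := lt_of_le_of_ne (h w hw) (Ne.symm hne)
      exact absurd hS1 (hbig w hw hlt).ne'
  have hQD : Q1 l → ∀ n, enveloping D n = Pool.Agent.X191.RL.free n := by
    intro hQ n
    rw [← hU n, enveloping_eq]
    unfold Pool.Agent.X191.RL.U Pool.Agent.X191.RL.P
    congr 1
    exact prod_congr rfl fun w hw => by rw [show D w = l w from hQ w (mem_Icc.1 hw).1]
  have hone : ∀ n, enveloping D n = Pool.Agent.X191.RL.free n → ∀ w, 1 ≤ w → w + 5 ≤ n → D w = l w := by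
    intro n hn w hw hwn
    exact Pool.Agent.X191.RL.one_weight hU h' hn hw (by omega) (Pool.Agent.X191.RL.free_pos (by omega)).ne'
  refine ⟨dm_finite, S, hlim, rfl, fun m hm hlt => ⟨Pool.Agent.X191.RL.sup_ge hm hlt, fun n =>
    Pool.Agent.X191.RL.sum_le hU h' hm hlt n⟩, hone, hQS, ?_, ?_⟩
  · constructor
    · intro hQ ε hε n₀
      refine ⟨n₀, le_rfl, ?_⟩
      rw [hQD hQ]
      have : (0 : ℝ) ≤ Pool.Agent.X191.RL.free n₀ := Nat.cast_nonneg _
      nlinarith
    · intro hh
      rw [hQS]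
      by_contra hne
      have hlt : 1 < S := by
        by_contra hle
        apply hne
        refine hQS.1 fun w hw => ?_
        by_contra hne2
        exact hle (hbig w hw (lt_of_le_of_ne (h w hw) (Ne.symm hne2)))
      obtain ⟨t, ht1, ht2⟩ := exists_between hlt
      have htt : t ≠ ∞ := (lt_of_lt_of_le ht2 le_top).ne
      have hev := hlim.eventually (lt_mem_nhds ht2)
      obtain ⟨n₁, hn₁⟩ := eventually_atTop.1 hev
      have ht3 : 1 < t.toReal := by
        rw [← ENNReal.toReal_one]
        exact (ENNReal.toReal_lt_toReal ENNReal.one_ne_top htt).2 ht1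
      obtain ⟨n, hn, hle⟩ := hh (t.toReal - 1) (by linarith) (n₁ + 5)
      have h4 := hn₁ n (by omega)
      have hfp : 0 < Pool.Agent.X191.RL.free n := Pool.Agent.X191.RL.free_pos (by omega)
      rw [ENNReal.lt_div_iff_mul_lt (Or.inl (by exact_mod_cast hfp.ne')) (Or.inl (ENNReal.natCast_ne_top _))] at h4
      have h5 : t * (Pool.Agent.X191.RL.free n : ℝ≥0∞) = ENNReal.ofReal (t.toReal * Pool.Agent.X191.RL.free n) := by
        rw [ENNReal.ofReal_mul ENNReal.toReal_nonneg, ENNReal.ofReal_toReal htt, ENNReal.ofReal_natCast]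
      rw [h5, ← ENNReal.ofReal_natCast, ENNReal.ofReal_lt_ofReal_iff_of_nonneg (by positivity)] at h4
      have h6 : (1 + (t.toReal - 1)) * (Pool.Agent.X191.RL.free n : ℝ) = t.toReal * Pool.Agent.X191.RL.free n := by ring
      rw [h6] at hle
      exact absurd h4 (not_lt.2 hle)
  · constructor
    · intro hQ n₀
      exact ⟨n₀, le_rfl, hQD hQ n₀⟩
    · intro hh w hw
      obtain ⟨n, hn, he⟩ := hh (w + 5)
      exact hone n he w hw hn

end Pool.Agent.Results.MP_ec2393_nt.RatioLaw
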